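import Mathlib

set_option autoImplicit false
open MeasureTheory ProbabilityTheory WithLp

namespace Pool.Agent.CondNum

abbrev E (n : ℕ) := EuclideanSpace ℝ (Fin n)

noncomputable abbrev T {n : ℕ} (A : Matrix (Fin n) (Fin n) ℝ) : E n →L[ℝ] E n :=
  Matrix.toEuclideanCLM (𝕜 := ℝ) A

lemma exists_small_vec {n : ℕ} (hn : 1 ≤ n) (A : Matrix (Fin n) (Fin n) ℝ) {x : ℝ}
    (h : A.det = 0 ∨ x ≤ ‖T A‖ * ‖T A⁻¹‖) : ∃ z : E n, ‖z‖ = 1 ∧ x * ‖T A z‖ ≤ ‖T A‖ := by
  have : NeZero n := ⟨by omega⟩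
  have : Nontrivial (E n) := by
    refine ⟨⟨EuclideanSpace.single (0 : Fin n) (1:ℝ), 0, ?_⟩⟩
    intro h0
    have := congrArg norm h0
    simp at this
  have hne : (Metric.sphere (0 : E n) 1).Nonempty := NormedSpace.sphere_nonempty.2 zero_le_one
  obtain ⟨z, hz, hmin⟩ := (isCompact_sphere (0 : E n) 1).exists_isMinOn hne
    (f := fun z => ‖T A z‖) (by fun_prop)
  have hz1 : ‖z‖ = 1 := by simpa using hz
  refine ⟨z, hz1, ?_⟩
  by_cases hc : ‖T A z‖ = 0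
  · rw [hc, mul_zero]; exact norm_nonneg _
  have hc0 : 0 < ‖T A z‖ := lt_of_le_of_ne (norm_nonneg _) (Ne.symm hc)
  have hlow : ∀ y : E n, ‖T A z‖ * ‖y‖ ≤ ‖T A y‖ := by
    intro y
    by_cases hy : y = 0
    · simp [hy]
    have hy0 : 0 < ‖y‖ := norm_pos_iff.2 hy
    have hmem : (‖y‖⁻¹ • y) ∈ Metric.sphere (0 : E n) 1 := by
      simp [norm_smul, hy]
    have h1 := hmin hmem
    simp only [Set.mem_ofPred_eq, map_smul, norm_smul, norm_inv, norm_norm] at h1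
    calc ‖T A z‖ * ‖y‖ ≤ (‖y‖⁻¹ * ‖T A y‖) * ‖y‖ := by gcongr
      _ = ‖T A y‖ := by field_simp
  have hdet : A.det ≠ 0 := by
    intro hd
    obtain ⟨v, hv, hAv⟩ := Matrix.exists_mulVec_eq_zero_iff.2 hd
    have h1 := hlow (toLp 2 v)
    have h2 : T A (toLp 2 v) = 0 := by
      rw [Matrix.toEuclideanCLM_toLp, hAv]; rfl
    rw [h2, norm_zero] at h1
    have h3 : 0 < ‖(toLp 2 v : E n)‖ := by
      rw [norm_pos_iff]
      intro h0
      apply hv
      have := congrArg ofLp h0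
      simpa using this
    have := mul_pos hc0 h3
    linarith
  have hx2 : x ≤ ‖T A‖ * ‖T A⁻¹‖ := h.resolve_left hdet
  have hinv : ‖T A⁻¹‖ ≤ ‖T A z‖⁻¹ := by
    apply ContinuousLinearMap.opNorm_le_bound _ (by positivity)
    intro y
    have h1 := hlow (T A⁻¹ y)
    have h2 : T A (T A⁻¹ y) = y := by
      have : (T A * T A⁻¹) y = y := by
        rw [← map_mul, Matrix.mul_nonsing_inv A (isUnit_iff_ne_zero.2 hdet), map_one]
        rfl
      exact this
    rw [h2] at h1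
    rw [inv_mul_eq_div, le_div_iff₀ hc0, mul_comm]
    exact h1
  calc x * ‖T A z‖ ≤ (‖T A‖ * ‖T A⁻¹‖) * ‖T A z‖ := by gcongr
    _ ≤ (‖T A‖ * ‖T A z‖⁻¹) * ‖T A z‖ := by gcongr
    _ = ‖T A‖ := by field_simp

/-- sign of a boolean -/
def sg (b : Bool) : ℝ := if b then 1 else -1

lemma sum_fun_succ {n : ℕ} (f : (Fin (n+1) → Bool) → ℝ) :
    ∑ ε, f ε = ∑ ε : Fin n → Bool, (f (Fin.cons true ε) + f (Fin.cons false ε)) := by
  rw [← (Fin.consEquiv (fun _ => Bool)).sum_comp, Fintype.sum_prod_type, Fintype.sum_bool,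
    ← Finset.sum_add_distrib]
  rfl

lemma mom2 {n : ℕ} (z : Fin n → ℝ) :
    ∑ ε : Fin n → Bool, (∑ i, z i * sg (ε i)) ^ 2 = 2 ^ n * ∑ i, z i ^ 2 := by
  induction n with
  | zero => simp
  | succ n ih =>
    rw [sum_fun_succ]
    have h : ∀ ε : Fin n → Bool,
        ((∑ i, z i * sg ((Fin.cons true ε : Fin (n+1) → Bool) i)) ^ 2 +
          (∑ i, z i * sg ((Fin.cons false ε : Fin (n+1) → Bool) i)) ^ 2) =
        2 * z 0 ^ 2 + 2 * (∑ i : Fin n, z i.succ * sg (ε i)) ^ 2 := by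
      intro ε
      simp only [Fin.sum_univ_succ, Fin.cons_zero, Fin.cons_succ, sg]
      simp
      ring
    simp_rw [h]
    rw [Finset.sum_add_distrib, ← Finset.mul_sum (a := (2:ℝ))]
    rw [← Finset.mul_sum (a := (2:ℝ)), ih (fun i => z i.succ), Fin.sum_univ_succ]
    simp
    ring

lemma mom4 {n : ℕ} (z : Fin n → ℝ) :
    ∑ ε : Fin n → Bool, (∑ i, z i * sg (ε i)) ^ 4 ≤ 3 * 2 ^ n * (∑ i, z i ^ 2) ^ 2 := by
  induction n with
  | zero => simp
  | succ n ih =>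
    rw [sum_fun_succ]
    have h : ∀ ε : Fin n → Bool,
        ((∑ i, z i * sg ((Fin.cons true ε : Fin (n+1) → Bool) i)) ^ 4 +
          (∑ i, z i * sg ((Fin.cons false ε : Fin (n+1) → Bool) i)) ^ 4) =
        2 * z 0 ^ 4 + 12 * z 0 ^ 2 * (∑ i : Fin n, z i.succ * sg (ε i)) ^ 2
          + 2 * (∑ i : Fin n, z i.succ * sg (ε i)) ^ 4 := by
      intro ε
      simp only [Fin.sum_univ_succ, Fin.cons_zero, Fin.cons_succ, sg]
      simp
      ring
    simp_rw [h]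
    rw [Finset.sum_add_distrib, Finset.sum_add_distrib]
    simp only [← Finset.mul_sum]
    rw [mom2 (fun i => z i.succ)]
    have h4 := ih (fun i => z i.succ)
    rw [Fin.sum_univ_succ]
    simp only [Finset.sum_const, Finset.card_univ, Fintype.card_pi, Fintype.card_bool,
      Finset.prod_const, Fintype.card_fin, nsmul_eq_mul, Nat.cast_pow, Nat.cast_ofNat]
    have hp : (0:ℝ) < 2 ^ n := by positivity
    set s := ∑ i : Fin n, z i.succ ^ 2
    have hz4 : 0 ≤ z 0 ^ 4 := by positivity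
    have : 2 * (∑ ε : Fin n → Bool, (∑ i : Fin n, z i.succ * sg (ε i)) ^ 4) ≤
      2 * (3 * 2 ^ n * s ^ 2) := by linarith
    have e1 : 3 * 2 ^ (n + 1) * (z 0 ^ 2 + s) ^ 2 - (2 * (2 ^ n * z 0 ^ 4) +
        12 * z 0 ^ 2 * (2 ^ n * s) + 2 * (3 * 2 ^ n * s ^ 2)) = 4 * (2 ^ n * z 0 ^ 4) := by ring
    have e2 : 0 ≤ 2 ^ n * z 0 ^ 4 := mul_nonneg hp.le hz4
    linarith

lemma pz {n : ℕ} (z : Fin n → ℝ) (hz : ∑ i, z i ^ 2 = 1) :
    (3 / 16 : ℝ) * 2 ^ n ≤
      ((Finset.univ.filter (fun ε : Fin n → Bool => 1 / 2 ≤ |∑ i, z i * sg (ε i)|)).card : ℝ) := by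
  set S := Finset.univ.filter (fun ε : Fin n → Bool => 1 / 2 ≤ |∑ i, z i * sg (ε i)|) with hS
  have h2 := mom2 z
  have h4 := mom4 z
  rw [hz] at h2 h4
  have hp : (0:ℝ) < 2 ^ n := by positivity
  set X : (Fin n → Bool) → ℝ := fun ε => (∑ i, z i * sg (ε i)) ^ 2 with hX
  have hsplit : ∑ ε ∈ S, X ε + ∑ ε ∈ Sᶜ, X ε = 2 ^ n := by
    rw [Finset.sum_add_sum_compl, h2]; ring
  have hcompl : ∑ ε ∈ Sᶜ, X ε ≤ 1 / 4 * 2 ^ n := by
    calc ∑ ε ∈ Sᶜ, X ε ≤ ∑ ε ∈ Sᶜ, (1 / 4 : ℝ) := by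
          apply Finset.sum_le_sum
          intro ε hε
          have h1 : |∑ i, z i * sg (ε i)| < 1 / 2 := by
            by_contra hcon
            push Not at hcon
            rw [Finset.mem_compl] at hε
            exact hε (Finset.mem_filter.2 ⟨Finset.mem_univ _, hcon⟩)
          simp only [hX]
          rw [← sq_abs]
          nlinarith [abs_nonneg (∑ i, z i * sg (ε i))]
      _ = (Sᶜ.card : ℝ) * (1 / 4) := by rw [Finset.sum_const, nsmul_eq_mul]
      _ ≤ 2 ^ n * (1 / 4) := by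
          gcongr
          have : (Sᶜ.card : ℝ) ≤ (Fintype.card (Fin n → Bool) : ℝ) := by
            exact_mod_cast Finset.card_le_univ _
          simpa using this
      _ = 1 / 4 * 2 ^ n := by ring
  have hlow : 3 / 4 * 2 ^ n ≤ ∑ ε ∈ S, X ε := by linarith
  have hcs : (∑ ε ∈ S, X ε) ^ 2 ≤ S.card * ∑ ε ∈ S, X ε ^ 2 := sq_sum_le_card_mul_sum_sq
  have hS4 : ∑ ε ∈ S, X ε ^ 2 ≤ 3 * 2 ^ n := by
    calc ∑ ε ∈ S, X ε ^ 2 ≤ ∑ ε, X ε ^ 2 :=
          Finset.sum_le_univ_sum_of_nonneg (fun _ => by positivity)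
      _ = ∑ ε : Fin n → Bool, (∑ i, z i * sg (ε i)) ^ 4 := by
          apply Finset.sum_congr rfl
          intro ε _
          simp only [hX]; ring
      _ ≤ 3 * 2 ^ n := by linarith
  have hc0 : (0:ℝ) ≤ S.card := Nat.cast_nonneg _
  have h5 : (3 / 4 * 2 ^ n : ℝ) ^ 2 ≤ S.card * (3 * 2 ^ n) := by
    calc (3 / 4 * 2 ^ n : ℝ) ^ 2 ≤ (∑ ε ∈ S, X ε) ^ 2 := by gcongr
      _ ≤ S.card * ∑ ε ∈ S, X ε ^ 2 := hcs
      _ ≤ S.card * (3 * 2 ^ n) := by gcongr
  have h6 : (3 * 2 ^ n : ℝ) * (3 / 16 * 2 ^ n) ≤ (3 * 2 ^ n) * S.card := by nlinarith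
  exact le_of_mul_le_mul_left h6 (by positivity)

noncomputable abbrev gam (n : ℕ) : Measure (Fin n → ℝ) := Measure.pi (fun _ => gaussianReal 0 1)

/-- an isometry of Euclidean space acting on plain vectors -/
noncomputable def rot {n : ℕ} (L : E n ≃ₗᵢ[ℝ] E n) (g : Fin n → ℝ) : Fin n → ℝ :=
  ofLp (L (toLp 2 g))

lemma continuous_rot {n : ℕ} (L : E n ≃ₗᵢ[ℝ] E n) : Continuous (rot L) := by
  unfold rot
  fun_prop

lemma rot_mp {n : ℕ} (L : E n ≃ₗᵢ[ℝ] E n) : MeasurePreserving (rot L) (gam n) (gam n) := by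
  refine ⟨(continuous_rot L).measurable, ?_⟩
  have h1 : (gam n).map (toLp 2) = stdGaussian (E n) := map_pi_eq_stdGaussian
  have h2 : (rot L) = ofLp ∘ (⇑L) ∘ (toLp 2) := rfl
  have h3 : (stdGaussian (E n)).map ofLp = gam n := by
    rw [← h1, Measure.map_map (by fun_prop) (by fun_prop)]
    have : (ofLp ∘ toLp 2 : (Fin n → ℝ) → (Fin n → ℝ)) = id := rfl
    rw [this, Measure.map_id]
  rw [h2, ← Measure.map_map (by fun_prop) (by fun_prop),
    ← Measure.map_map (by fun_prop) (by fun_prop), h1, stdGaussian_map L, h3]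

lemma rot_add {n : ℕ} (L : E n ≃ₗᵢ[ℝ] E n) (g h : Fin n → ℝ) :
    rot L (g + h) = rot L g + rot L h := by
  unfold rot
  rw [toLp_add, map_add, ofLp_add]

lemma rot_smul {n : ℕ} (L : E n ≃ₗᵢ[ℝ] E n) (c : ℝ) (g : Fin n → ℝ) :
    rot L (c • g) = c • rot L g := by
  unfold rot
  rw [toLp_smul, map_smul, ofLp_smul]

lemma norm_rot {n : ℕ} (L : E n ≃ₗᵢ[ℝ] E n) (g : Fin n → ℝ) :
    ‖(toLp 2 (rot L g) : E n)‖ = ‖(toLp 2 g : E n)‖ := by
  unfold rot
  rw [toLp_ofLp, L.norm_map]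

/-- isometry sending the first basis vector to a given unit vector -/
lemma exists_iso {k : ℕ} (v : E (k + 1)) (hv : ‖v‖ = 1) :
    ∃ L : E (k + 1) ≃ₗᵢ[ℝ] E (k + 1), L (EuclideanSpace.single 0 1) = v := by
  refine ⟨(ℝ ∙ (EuclideanSpace.single 0 1 - v))ᗮ.reflection, ?_⟩
  apply Submodule.reflection_sub
  simp [hv]

/-- small ball bound for a one-dimensional Gaussian -/
lemma small_ball (a σ ρ : ℝ) (hσ : 0 < σ) :
    gaussianReal 0 1 {t | |a + σ * t| < ρ} ≤ ENNReal.ofReal (ρ / σ) := by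
  have hset : {t : ℝ | |a + σ * t| < ρ} = Set.Ioo ((-a - ρ) / σ) ((-a + ρ) / σ) := by
    ext t
    simp only [Set.mem_ofPred_eq, Set.mem_Ioo, abs_lt, div_lt_iff₀ hσ, lt_div_iff₀ hσ]
    constructor
    · rintro ⟨h1, h2⟩; constructor <;> nlinarith
    · rintro ⟨h1, h2⟩; constructor <;> nlinarith
  rw [hset, gaussianReal_apply _ one_ne_zero]
  have hpdf : ∀ t, gaussianPDF 0 1 t ≤ ENNReal.ofReal (1 / 2) := by
    intro t
    unfold gaussianPDF
    apply ENNReal.ofReal_le_ofReal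
    unfold gaussianPDFReal
    have h1 : Real.exp (-(t - 0) ^ 2 / (2 * ((1 : NNReal) : ℝ))) ≤ 1 := by
      rw [Real.exp_le_one_iff]
      have : 0 ≤ (t - 0) ^ 2 := sq_nonneg _
      simp only [NNReal.coe_one, mul_one]
      linarith
    have h2 : (√(2 * Real.pi * ((1 : NNReal) : ℝ)))⁻¹ ≤ 1 / 2 := by
      rw [NNReal.coe_one, mul_one, inv_le_comm₀ (by positivity) (by norm_num)]
      apply Real.le_sqrt_of_sq_le
      have := Real.pi_gt_three
      norm_num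
      linarith
    calc _ ≤ (1 / 2 : ℝ) * 1 := by gcongr
      _ = 1 / 2 := by ring
  calc ∫⁻ x in Set.Ioo ((-a - ρ) / σ) ((-a + ρ) / σ), gaussianPDF 0 1 x
      ≤ ∫⁻ x in Set.Ioo ((-a - ρ) / σ) ((-a + ρ) / σ), ENNReal.ofReal (1 / 2) :=
        lintegral_mono (fun x => hpdf x)
    _ = ENNReal.ofReal (1 / 2) * ENNReal.ofReal (((-a + ρ) / σ) - ((-a - ρ) / σ)) := by
        rw [setLIntegral_const, Real.volume_Ioo]
    _ = ENNReal.ofReal (ρ / σ) := by
        rw [← ENNReal.ofReal_mul (by norm_num)]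
        congr 1
        field_simp
        ring

/-- expected Euclidean norm of a Gaussian vector -/
lemma lintegral_norm_le (k : ℕ) :
    ∫⁻ g, ENNReal.ofReal ‖(toLp 2 g : E k)‖ ∂(gam k) ≤ ENNReal.ofReal (√(k + 1)) := by
  have hs : (0:ℝ) < √(k + 1) := Real.sqrt_pos.2 (by positivity)
  have hss : √((k:ℝ) + 1) ^ 2 = k + 1 := Real.sq_sqrt (by positivity)
  have hpt : ∀ g : Fin k → ℝ, ENNReal.ofReal ‖(toLp 2 g : E k)‖ ≤
      ENNReal.ofReal ((2 * √(k + 1))⁻¹) * ∑ i, ENNReal.ofReal (g i ^ 2) +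
        ENNReal.ofReal (√(k + 1) / 2) := by
    intro g
    rw [← ENNReal.ofReal_sum_of_nonneg (fun i _ => sq_nonneg _),
      ← ENNReal.ofReal_mul (by positivity), ← ENNReal.ofReal_add (by positivity) (by positivity)]
    apply ENNReal.ofReal_le_ofReal
    have h1 : ∑ i, g i ^ 2 = ‖(toLp 2 g : E k)‖ ^ 2 := by
      rw [EuclideanSpace.real_norm_sq_eq]
    rw [h1]
    set N := ‖(toLp 2 g : E k)‖
    rw [inv_mul_eq_div, div_add_div _ _ (by positivity) (by norm_num), le_div_iff₀ (by positivity)]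
    nlinarith [sq_nonneg (N - √(k + 1))]
  have hone : ∫⁻ t, ENNReal.ofReal (t ^ 2) ∂(gaussianReal 0 1) = 1 := by
    have h1 : Integrable (fun t : ℝ => t ^ 2) (gaussianReal 0 1) := by
      have := memLp_id_gaussianReal (μ := 0) (v := 1) 2
      exact this.integrable_sq
    rw [← ofReal_integral_eq_lintegral_ofReal h1 (Filter.Eventually.of_forall (fun t => sq_nonneg t))]
    have h2 : ∫ t, t ^ 2 ∂(gaussianReal 0 1) = 1 := by
      have h3 := variance_id_gaussianReal (μ := 0) (v := 1)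
      rw [variance_of_integral_eq_zero (by fun_prop) (by simp)] at h3
      simpa using h3
    rw [h2]; simp
  have hcoord : ∀ i : Fin k, ∫⁻ g, ENNReal.ofReal (g i ^ 2) ∂(gam k) = 1 := by
    intro i
    have hmp := measurePreserving_eval (fun _ : Fin k => gaussianReal 0 1) i
    have := hmp.lintegral_comp (f := fun t : ℝ => ENNReal.ofReal (t ^ 2)) (by fun_prop)
    rw [← hone, ← this]
  calc ∫⁻ g, ENNReal.ofReal ‖(toLp 2 g : E k)‖ ∂(gam k)
      ≤ ∫⁻ g, (ENNReal.ofReal ((2 * √(k + 1))⁻¹) * ∑ i, ENNReal.ofReal (g i ^ 2) +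
        ENNReal.ofReal (√(k + 1) / 2)) ∂(gam k) := lintegral_mono hpt
    _ = ENNReal.ofReal ((2 * √(k + 1))⁻¹) * k + ENNReal.ofReal (√(k + 1) / 2) := by
        rw [lintegral_add_right _ measurable_const, lintegral_const_mul _ (by fun_prop),
          lintegral_finsetSum _ (by fun_prop)]
        simp_rw [hcoord]
        simp
    _ ≤ ENNReal.ofReal (√(k + 1)) := by
        rw [← ENNReal.ofReal_natCast k, ← ENNReal.ofReal_mul (by positivity),
          ← ENNReal.ofReal_add (by positivity) (by positivity)]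
        apply ENNReal.ofReal_le_ofReal
        rw [inv_mul_eq_div, div_add_div _ _ (by positivity) (by norm_num),
          div_le_iff₀ (by positivity)]
        nlinarith [sq_nonneg (√((k:ℝ) + 1))]


end Pool.Agent.CondNum
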