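import Pool.Agent.MP_7b591b_pr.Basic

set_option autoImplicit false
open MeasureTheory ProbabilityTheory WithLp

namespace Pool.Agent.CondNum

lemma exists_normal {k : ℕ} (D : Matrix (Fin (k + 1)) (Fin k) ℝ) :
    ∃ ν : E (k + 1), ‖ν‖ = 1 ∧ ∀ w : Fin k → ℝ, inner ℝ ν (toLp 2 (D.mulVec w)) = 0 := by
  have hker : LinearMap.ker (Matrix.mulVecLin D.transpose) ≠ ⊥ := by
    apply LinearMap.ker_ne_bot_of_finrank_lt
    simp
  obtain ⟨ν, hν, hν0⟩ := (Submodule.ne_bot_iff _).1 hker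
  have hν' : D.transpose.mulVec ν = 0 := LinearMap.mem_ker.1 hν
  have hn0 : (toLp 2 ν : E (k + 1)) ≠ 0 := by
    intro h
    apply hν0
    simpa using congrArg ofLp h
  have hn : 0 < ‖(toLp 2 ν : E (k + 1))‖ := norm_pos_iff.2 hn0
  refine ⟨‖(toLp 2 ν : E (k + 1))‖⁻¹ • (toLp 2 ν : E (k + 1)), ?_, ?_⟩
  · rw [norm_smul, norm_inv, norm_norm, inv_mul_cancel₀ hn.ne']
  · intro w
    rw [inner_smul_left, EuclideanSpace.inner_toLp_toLp]
    have : D.mulVec w ⬝ᵥ star ν = 0 := by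
      rw [star_trivial, dotProduct_comm, Matrix.dotProduct_mulVec, ← Matrix.mulVec_transpose, hν',
        zero_dotProduct]
    rw [this, mul_zero]

lemma norm_succ_le {k : ℕ} (g : Fin (k + 1) → ℝ) :
    ‖(toLp 2 g : E (k + 1))‖ ≤ |g 0| + ‖(toLp 2 (fun i : Fin k => g i.succ) : E k)‖ := by
  have h1 : ‖(toLp 2 g : E (k + 1))‖ ^ 2 =
      |g 0| ^ 2 + ‖(toLp 2 (fun i : Fin k => g i.succ) : E k)‖ ^ 2 := by
    rw [EuclideanSpace.real_norm_sq_eq, EuclideanSpace.real_norm_sq_eq, Fin.sum_univ_succ, sq_abs]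
  apply le_of_sq_le_sq _ (by positivity)
  rw [h1]
  nlinarith [abs_nonneg (g 0), norm_nonneg (toLp 2 (fun i : Fin k => g i.succ) : E k),
    mul_nonneg (abs_nonneg (g 0)) (norm_nonneg (toLp 2 (fun i : Fin k => g i.succ) : E k))]

/-- The set of `g` such that `m + σ g` is close to the column space of `D`. -/
def colSet {k : ℕ} (m : Fin (k + 1) → ℝ) (σ δ K : ℝ) (D : Matrix (Fin (k + 1)) (Fin k) ℝ) :
    Set (Fin (k + 1) → ℝ) :=
  {g | ∃ w : Fin k → ℝ, ‖(toLp 2 (m + σ • g - D.mulVec w) : E (k + 1))‖ <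
    δ * (K + ‖(toLp 2 (m + σ • g) : E (k + 1))‖)}

lemma split_bound {k : ℕ} (a σ δ K' : ℝ) (hσ : 0 < σ) (hδ : 0 ≤ δ) (hK : 0 ≤ K') :
    gam (k + 1) {g | |a + σ * g 0| <
      2 * δ * (K' + σ * ‖(toLp 2 (fun i : Fin k => g i.succ) : E k)‖)} ≤
      ENNReal.ofReal (2 * δ / σ * (K' + σ * √(k + 1))) := by
  have hmp := measurePreserving_piFinSuccAbove (fun _ : Fin (k + 1) => gaussianReal 0 1) 0
  set S : Set (ℝ × (Fin k → ℝ)) := {p | |a + σ * p.1| <
    2 * δ * (K' + σ * ‖(toLp 2 p.2 : E k)‖)} with hS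
  have hSm : MeasurableSet S := by
    apply measurableSet_lt <;> fun_prop
  have hpre : {g : Fin (k + 1) → ℝ | |a + σ * g 0| <
      2 * δ * (K' + σ * ‖(toLp 2 (fun i : Fin k => g i.succ) : E k)‖)} =
      (MeasurableEquiv.piFinSuccAbove (fun _ => ℝ) 0) ⁻¹' S := by
    ext g
    simp [hS, MeasurableEquiv.piFinSuccAbove]
    rfl
  rw [hpre, hmp.measure_preimage hSm.nullMeasurableSet, Measure.prod_apply_symm hSm]
  calc ∫⁻ y, gaussianReal 0 1 ((fun x => (x, y)) ⁻¹' S) ∂(gam k)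
      ≤ ∫⁻ y, (ENNReal.ofReal (2 * δ / σ * K') +
          ENNReal.ofReal (2 * δ) * ENNReal.ofReal ‖(toLp 2 y : E k)‖) ∂(gam k) := by
        apply lintegral_mono
        intro y
        have h1 : (fun x => (x, y)) ⁻¹' S = {t : ℝ | |a + σ * t| <
          2 * δ * (K' + σ * ‖(toLp 2 y : E k)‖)} := by
          ext t; simp [hS]
        simp only [h1]
        refine (small_ball a σ _ hσ).trans ?_
        rw [← ENNReal.ofReal_mul (by positivity), ← ENNReal.ofReal_add (by positivity)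
          (by positivity)]
        apply ENNReal.ofReal_le_ofReal
        apply le_of_eq
        field_simp
    _ = ENNReal.ofReal (2 * δ / σ * K') + ENNReal.ofReal (2 * δ) *
          ∫⁻ y, ENNReal.ofReal ‖(toLp 2 y : E k)‖ ∂(gam k) := by
        rw [lintegral_add_left measurable_const, lintegral_const_mul _ (by fun_prop)]
        simp
    _ ≤ ENNReal.ofReal (2 * δ / σ * K') + ENNReal.ofReal (2 * δ) * ENNReal.ofReal (√(k + 1)) := by
        gcongr
        exact lintegral_norm_le k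
    _ = ENNReal.ofReal (2 * δ / σ * (K' + σ * √(k + 1))) := by
        rw [← ENNReal.ofReal_mul (by positivity), ← ENNReal.ofReal_add (by positivity)
          (by positivity)]
        congr 1
        field_simp

lemma colSet_le {k : ℕ} (m : Fin (k + 1) → ℝ) (σ δ K : ℝ) (hσ : 0 < σ) (hδ : 0 ≤ δ)
    (hδ2 : δ ≤ 1 / 2) (hK : 0 ≤ K) (D : Matrix (Fin (k + 1)) (Fin k) ℝ) :
    gam (k + 1) (colSet m σ δ K D) ≤
      ENNReal.ofReal (2 * δ / σ * (K + 2 * ‖(toLp 2 m : E (k + 1))‖ + σ * √(k + 1))) := by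
  obtain ⟨ν, hν, hνD⟩ := exists_normal D
  obtain ⟨L, hL⟩ := exists_iso ν hν
  set a : ℝ := inner ℝ ν (toLp 2 m) with ha
  have haM : |a| ≤ ‖(toLp 2 m : E (k + 1))‖ := by
    have := abs_real_inner_le_norm ν (toLp 2 m : E (k + 1))
    rwa [hν, one_mul] at this
  have hcoord : ∀ g : Fin (k + 1) → ℝ, inner ℝ ν (toLp 2 g) = rot L.symm g 0 := by
    intro g
    rw [← hL]
    have : inner ℝ (L (EuclideanSpace.single 0 1)) (toLp 2 g : E (k + 1)) =
        inner ℝ (EuclideanSpace.single 0 1) (L.symm (toLp 2 g)) := by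
      rw [← L.inner_map_map (EuclideanSpace.single 0 1) (L.symm (toLp 2 g)), L.apply_symm_apply]
    rw [this, EuclideanSpace.inner_single_left]
    simp [rot]
  have hsub : colSet m σ δ K D ⊆ (rot L.symm) ⁻¹' {g | |a + σ * g 0| <
      2 * δ * ((K + 2 * ‖(toLp 2 m : E (k + 1))‖) +
        σ * ‖(toLp 2 (fun i : Fin k => g i.succ) : E k)‖)} := by
    rintro g ⟨w, hw⟩
    simp only [Set.mem_preimage, Set.mem_ofPred_eq]
    have h1 : inner ℝ ν (toLp 2 (m + σ • g - D.mulVec w) : E (k + 1)) =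
        a + σ * rot L.symm g 0 := by
      rw [toLp_sub, toLp_add, toLp_smul, inner_sub_right, inner_add_right, inner_smul_right,
        hνD, hcoord g, sub_zero]
    have h2 := abs_real_inner_le_norm ν (toLp 2 (m + σ • g - D.mulVec w) : E (k + 1))
    rw [hν, one_mul, h1] at h2
    have h3 : ‖(toLp 2 (m + σ • g) : E (k + 1))‖ ≤
        ‖(toLp 2 m : E (k + 1))‖ + σ * ‖(toLp 2 g : E (k + 1))‖ := by
      rw [toLp_add, toLp_smul]
      refine (norm_add_le _ _).trans ?_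
      rw [norm_smul, Real.norm_of_nonneg hσ.le]
    have h4 := norm_succ_le (rot L.symm g)
    rw [norm_rot] at h4
    set N := ‖(toLp 2 m : E (k + 1))‖
    set R := ‖(toLp 2 (fun i : Fin k => rot L.symm g i.succ) : E k)‖
    set b := rot L.symm g 0
    have h5 : σ * |b| ≤ |a + σ * b| + N := by
      have e : σ * b = (a + σ * b) - a := by ring
      calc σ * |b| = |σ * b| := by rw [abs_mul, abs_of_pos hσ]
        _ = |(a + σ * b) - a| := by rw [← e]
        _ ≤ |a + σ * b| + |a| := abs_sub _ _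
        _ ≤ |a + σ * b| + N := by linarith
    have h6 : |a + σ * b| < δ * (K + 2 * N + |a + σ * b| + σ * R) := by
      calc |a + σ * b| < δ * (K + ‖(toLp 2 (m + σ • g) : E (k + 1))‖) := lt_of_le_of_lt h2 hw
        _ ≤ δ * (K + 2 * N + |a + σ * b| + σ * R) := by
          apply mul_le_mul_of_nonneg_left _ hδ
          have : σ * ‖(toLp 2 g : E (k + 1))‖ ≤ σ * (|b| + R) :=
            mul_le_mul_of_nonneg_left h4 hσ.le
          nlinarith
    have h7 : δ * |a + σ * b| ≤ 1 / 2 * |a + σ * b| :=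
      mul_le_mul_of_nonneg_right hδ2 (abs_nonneg _)
    nlinarith
  calc gam (k + 1) (colSet m σ δ K D) ≤ gam (k + 1) ((rot L.symm) ⁻¹' {g | |a + σ * g 0| <
      2 * δ * ((K + 2 * ‖(toLp 2 m : E (k + 1))‖) +
        σ * ‖(toLp 2 (fun i : Fin k => g i.succ) : E k)‖)}) := measure_mono hsub
    _ = gam (k + 1) {g | |a + σ * g 0| <
      2 * δ * ((K + 2 * ‖(toLp 2 m : E (k + 1))‖) +
        σ * ‖(toLp 2 (fun i : Fin k => g i.succ) : E k)‖)} := by
        apply (rot_mp L.symm).measure_preimage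
        apply MeasurableSet.nullMeasurableSet
        apply measurableSet_lt <;> fun_prop
    _ ≤ _ := split_bound a σ δ _ hσ hδ (by positivity)

end Pool.Agent.CondNum
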