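import Pool.Agent.MP_7b591b_pr.Norm
import Pool.Agent.MP_7b591b_pr.Column

set_option autoImplicit false
open MeasureTheory ProbabilityTheory WithLp

namespace Pool.Agent.CondNum

lemma continuous_T {n : ℕ} : Continuous (fun A : Matrix (Fin n) (Fin n) ℝ => T A) := by
  have : (fun A : Matrix (Fin n) (Fin n) ℝ => T A) =
      ((Matrix.toEuclideanCLM (𝕜 := ℝ) (n := Fin n)).toAlgEquiv.toLinearMap) := rfl
  rw [this]
  exact LinearMap.continuous_of_finiteDimensional _

/-- Put a zero column in front of `D`. -/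
def padCol {k : ℕ} (D : Matrix (Fin (k + 1)) (Fin k) ℝ) : Matrix (Fin (k + 1)) (Fin (k + 1)) ℝ :=
  Matrix.of fun i => Fin.cons 0 (D i)

lemma continuous_padCol {k : ℕ} : Continuous (padCol (k := k)) := by
  unfold padCol
  apply continuous_pi
  intro i
  apply continuous_pi
  intro j
  refine Fin.cases ?_ (fun j => ?_) j
  · simp only [Matrix.of_apply, Fin.cons_zero]; fun_prop
  · simp only [Matrix.of_apply, Fin.cons_succ]; fun_prop

lemma padCol_mulVec {k : ℕ} (D : Matrix (Fin (k + 1)) (Fin k) ℝ) (y : Fin (k + 1) → ℝ) :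
    (padCol D).mulVec y = D.mulVec (fun j => y j.succ) := by
  ext i
  simp [padCol, Matrix.mulVec, dotProduct, Fin.sum_univ_succ]

lemma split_mulVec {k : ℕ} (A : Matrix (Fin (k + 1)) (Fin (k + 1)) ℝ) (y : Fin (k + 1) → ℝ) :
    A.mulVec y = y 0 • (fun i => A i 0) +
      (Matrix.of fun i (j : Fin k) => A i j.succ).mulVec (fun j => y j.succ) := by
  ext i
  simp [Matrix.mulVec, dotProduct, Fin.sum_univ_succ, mul_comm]

lemma norm_le_pad {k : ℕ} (A : Matrix (Fin (k + 1)) (Fin (k + 1)) ℝ) :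
    ‖T A‖ ≤ ‖T (padCol (Matrix.of fun i (j : Fin k) => A i j.succ))‖ +
      ‖(toLp 2 (fun i => A i 0) : E (k + 1))‖ := by
  apply ContinuousLinearMap.opNorm_le_bound _ (by positivity)
  intro y
  have h1 : T A y = T (padCol (Matrix.of fun i (j : Fin k) => A i j.succ)) y +
      y 0 • (toLp 2 (fun i => A i 0) : E (k + 1)) := by
    apply ofLp_injective
    rw [ofLp_add, ofLp_smul, Matrix.ofLp_toEuclideanCLM, Matrix.ofLp_toEuclideanCLM,
      padCol_mulVec, split_mulVec A (ofLp y)]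
    abel
  rw [h1, add_mul]
  refine (norm_add_le _ _).trans ?_
  have h2 : |y 0| ≤ ‖y‖ := by
    have := PiLp.norm_apply_le y 0
    simpa using this
  have h3 := (T (padCol (Matrix.of fun i (j : Fin k) => A i j.succ))).le_opNorm y
  rw [norm_smul, Real.norm_eq_abs]
  have h4 : |y 0| * ‖(toLp 2 (fun i => A i 0) : E (k + 1))‖ ≤
      ‖(toLp 2 (fun i => A i 0) : E (k + 1))‖ * ‖y‖ := by
    rw [mul_comm]; gcongr
  linarith

lemma pad_le_norm {k : ℕ} (A : Matrix (Fin (k + 1)) (Fin (k + 1)) ℝ) :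
    ‖T (padCol (Matrix.of fun i (j : Fin k) => A i j.succ))‖ ≤ ‖T A‖ := by
  apply ContinuousLinearMap.opNorm_le_bound _ (by positivity)
  intro y
  set y' : E (k + 1) := toLp 2 (Fin.cons 0 (fun j => y j.succ)) with hy'
  have h1 : T (padCol (Matrix.of fun i (j : Fin k) => A i j.succ)) y = T A y' := by
    apply ofLp_injective
    rw [Matrix.ofLp_toEuclideanCLM, Matrix.ofLp_toEuclideanCLM, padCol_mulVec, split_mulVec A]
    simp [hy']
  have h2 : ‖y'‖ ≤ ‖y‖ := by
    apply le_of_sq_le_sq _ (norm_nonneg _)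
    rw [EuclideanSpace.real_norm_sq_eq, EuclideanSpace.real_norm_sq_eq, Fin.sum_univ_succ,
      Fin.sum_univ_succ]
    simp only [hy', Fin.cons_zero, Fin.cons_succ]
    nlinarith [sq_nonneg (y 0)]
  rw [h1]
  exact ((T A).le_opNorm y').trans (by gcongr)

lemma col_le_norm {k : ℕ} (A : Matrix (Fin (k + 1)) (Fin (k + 1)) ℝ) :
    ‖(toLp 2 (fun i => A i 0) : E (k + 1))‖ ≤ ‖T A‖ := by
  have h1 : T A (EuclideanSpace.single 0 1) = toLp 2 (fun i => A i 0) := by
    apply ofLp_injective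
    rw [Matrix.ofLp_toEuclideanCLM]
    ext i
    simp
  have h2 := (T A).le_opNorm (EuclideanSpace.single 0 1)
  rw [h1] at h2
  simpa using h2

/-- first column / remaining columns -/
def splitM {k : ℕ} (G : Fin (k + 1) → Fin (k + 1) → ℝ) :
    (Fin (k + 1) → ℝ) × (Fin (k + 1) → Fin k → ℝ) :=
  (fun i => G i 0, fun i j => G i j.succ)

lemma splitM_mp {k : ℕ} : MeasurePreserving (splitM (k := k)) (muM (k + 1))
    ((gam (k + 1)).prod (Measure.pi (fun _ : Fin (k + 1) => gam k))) := by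
  have h1 : MeasurePreserving (fun (G : Fin (k + 1) → Fin (k + 1) → ℝ) (i : Fin (k + 1)) =>
      (MeasurableEquiv.piFinSuccAbove (fun _ => ℝ) 0) (G i)) (muM (k + 1))
      (Measure.pi (fun _ : Fin (k + 1) => (gaussianReal 0 1).prod (gam k))) :=
    measurePreserving_pi _ _ (fun i =>
      measurePreserving_piFinSuccAbove (fun _ : Fin (k + 1) => gaussianReal 0 1) 0)
  have h2 := measurePreserving_arrowProdEquivProdArrow ℝ (Fin k → ℝ) (Fin (k + 1))
    (fun _ => gaussianReal 0 1) (fun _ => gam k)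
  exact h2.comp h1

/-- the bad set for the first column -/
def badSet {k : ℕ} (M : Matrix (Fin (k + 1)) (Fin (k + 1)) ℝ) (σ δ : ℝ) :
    Set (Fin (k + 1) → Fin (k + 1) → ℝ) :=
  {G | ∃ w : Fin k → ℝ,
    ‖(toLp 2 ((fun i => (M + σ • Matrix.of G) i 0) -
      (Matrix.of fun i (j : Fin k) => (M + σ • Matrix.of G) i j.succ).mulVec w) : E (k + 1))‖ <
    δ * ((‖T (padCol (Matrix.of fun i (j : Fin k) => (M + σ • Matrix.of G) i j.succ))‖ + 1) +
      ‖(toLp 2 (fun i => (M + σ • Matrix.of G) i 0) : E (k + 1))‖)}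

/-- same set in product coordinates -/
def badSet' {k : ℕ} (M : Matrix (Fin (k + 1)) (Fin (k + 1)) ℝ) (σ δ : ℝ) :
    Set ((Fin (k + 1) → ℝ) × (Fin (k + 1) → Fin k → ℝ)) :=
  {p | ∃ w : Fin k → ℝ,
    ‖(toLp 2 ((fun i => M i 0) + σ • p.1 -
      (Matrix.of fun i (j : Fin k) => M i j.succ + σ * p.2 i j).mulVec w) : E (k + 1))‖ <
    δ * ((‖T (padCol (Matrix.of fun i (j : Fin k) => M i j.succ + σ * p.2 i j))‖ + 1) +
      ‖(toLp 2 ((fun i => M i 0) + σ • p.1) : E (k + 1))‖)}

lemma badSet_eq {k : ℕ} (M : Matrix (Fin (k + 1)) (Fin (k + 1)) ℝ) (σ δ : ℝ) :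
    badSet M σ δ = splitM ⁻¹' (badSet' M σ δ) := by
  ext G
  rfl

lemma isOpen_badSet' {k : ℕ} (M : Matrix (Fin (k + 1)) (Fin (k + 1)) ℝ) (σ δ : ℝ) :
    IsOpen (badSet' M σ δ) := by
  have h : badSet' M σ δ = ⋃ w : Fin k → ℝ, {p | ‖(toLp 2 ((fun i => M i 0) + σ • p.1 -
      (Matrix.of fun i (j : Fin k) => M i j.succ + σ * p.2 i j).mulVec w) : E (k + 1))‖ <
    δ * ((‖T (padCol (Matrix.of fun i (j : Fin k) => M i j.succ + σ * p.2 i j))‖ + 1) +
      ‖(toLp 2 ((fun i => M i 0) + σ • p.1) : E (k + 1))‖)} := by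
    ext p
    simp [badSet']
  rw [h]
  apply isOpen_iUnion
  intro w
  have hD : Continuous (fun p : (Fin (k + 1) → ℝ) × (Fin (k + 1) → Fin k → ℝ) =>
      (Matrix.of fun i (j : Fin k) => M i j.succ + σ * p.2 i j :
        Matrix (Fin (k + 1)) (Fin k) ℝ)) := by
    apply continuous_pi
    intro i
    apply continuous_pi
    intro j
    simp only [Matrix.of_apply]
    fun_prop
  have hDw : Continuous (fun p : (Fin (k + 1) → ℝ) × (Fin (k + 1) → Fin k → ℝ) =>
      (Matrix.of fun i (j : Fin k) => M i j.succ + σ * p.2 i j :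
        Matrix (Fin (k + 1)) (Fin k) ℝ).mulVec w) := by
    exact Continuous.matrix_mulVec hD continuous_const
  have hT : Continuous (fun p : (Fin (k + 1) → ℝ) × (Fin (k + 1) → Fin k → ℝ) =>
      ‖T (padCol (Matrix.of fun i (j : Fin k) => M i j.succ + σ * p.2 i j))‖) := by
    exact (continuous_T.comp (continuous_padCol.comp hD)).norm
  apply isOpen_lt
  · fun_prop
  · fun_prop

lemma pad_mean_le {k : ℕ} (M : Matrix (Fin (k + 1)) (Fin (k + 1)) ℝ) (σ : ℝ) (hσ : 0 < σ)
    (hσ1 : σ ≤ 1) (hM : ‖T M‖ ≤ √((k + 1 : ℕ) : ℝ)) :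
    ∫⁻ H, ENNReal.ofReal ‖T (padCol (Matrix.of fun i (j : Fin k) => M i j.succ + σ * H i j))‖
      ∂(Measure.pi (fun _ : Fin (k + 1) => gam k)) ≤
      ENNReal.ofReal (16 * √((k + 1 : ℕ) : ℝ)) := by
  have hD : Continuous (fun H : (Fin (k + 1) → Fin k → ℝ) =>
      (Matrix.of fun i (j : Fin k) => M i j.succ + σ * H i j :
        Matrix (Fin (k + 1)) (Fin k) ℝ)) := by
    apply continuous_pi
    intro i
    apply continuous_pi
    intro j
    simp only [Matrix.of_apply]
    fun_prop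
  have hT : Continuous (fun H : (Fin (k + 1) → Fin k → ℝ) =>
      ‖T (padCol (Matrix.of fun i (j : Fin k) => M i j.succ + σ * H i j))‖) :=
    (continuous_T.comp (continuous_padCol.comp hD)).norm
  have hsnd : MeasurePreserving (Prod.snd)
      ((gam (k + 1)).prod (Measure.pi (fun _ : Fin (k + 1) => gam k)))
      (Measure.pi (fun _ : Fin (k + 1) => gam k)) := measurePreserving_snd
  have hcomp := (hsnd.comp (splitM_mp (k := k))).lintegral_comp
    (f := fun H => ENNReal.ofReal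
      ‖T (padCol (Matrix.of fun i (j : Fin k) => M i j.succ + σ * H i j))‖)
      hT.measurable.ennreal_ofReal
  rw [← hcomp]
  calc _ ≤ ∫⁻ G, (ENNReal.ofReal ‖T M‖ + ENNReal.ofReal σ * ENNReal.ofReal ‖T (Matrix.of G)‖)
        ∂(muM (k + 1)) := by
        refine lintegral_mono (fun G => ?_)
        beta_reduce
        rw [← ENNReal.ofReal_mul hσ.le, ← ENNReal.ofReal_add (norm_nonneg _) (by positivity)]
        apply ENNReal.ofReal_le_ofReal
        have h1 := pad_le_norm (M + σ • Matrix.of G)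
        have h2 : ‖T (M + σ • Matrix.of G)‖ ≤ ‖T M‖ + σ * ‖T (Matrix.of G)‖ := by
          have : T (M + σ • Matrix.of G) = T M + σ • T (Matrix.of G) := by
            simp only [T, map_add, map_smul]
          rw [this]
          refine (norm_add_le _ _).trans ?_
          rw [norm_smul, Real.norm_of_nonneg hσ.le]
        exact h1.trans h2
    _ ≤ ENNReal.ofReal ‖T M‖ + ENNReal.ofReal σ *
          ENNReal.ofReal (15 * √((k + 1 : ℕ) : ℝ)) := by
        rw [lintegral_add_left measurable_const, lintegral_const_mul' _ _ ENNReal.ofReal_ne_top,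
          lintegral_const, measure_univ, mul_one]
        gcongr
        exact norm_mean_le (by omega)
    _ ≤ ENNReal.ofReal (16 * √((k + 1 : ℕ) : ℝ)) := by
        rw [← ENNReal.ofReal_mul hσ.le, ← ENNReal.ofReal_add (norm_nonneg _) (by positivity)]
        apply ENNReal.ofReal_le_ofReal
        have : σ * (15 * √((k + 1 : ℕ) : ℝ)) ≤ 1 * (15 * √((k + 1 : ℕ) : ℝ)) := by gcongr
        linarith

lemma badSet_le {k : ℕ} (M : Matrix (Fin (k + 1)) (Fin (k + 1)) ℝ) (σ δ : ℝ) (hσ : 0 < σ)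
    (hσ1 : σ ≤ 1) (hδ : 0 ≤ δ) (hδ2 : δ ≤ 1 / 2) (hM : ‖T M‖ ≤ √((k + 1 : ℕ) : ℝ)) :
    muM (k + 1) (badSet M σ δ) ≤ ENNReal.ofReal (40 * δ * √((k + 1 : ℕ) : ℝ) / σ) := by
  have hmeas : MeasurableSet (badSet' M σ δ) := (isOpen_badSet' M σ δ).measurableSet
  rw [badSet_eq, (splitM_mp (k := k)).measure_preimage hmeas.nullMeasurableSet,
    Measure.prod_apply_symm hmeas]
  set s := √((k + 1 : ℕ) : ℝ) with hs
  have hs1 : 1 ≤ s := by
    rw [hs]; apply Real.one_le_sqrt.2; push_cast; linarith [(Nat.cast_nonneg k : (0:ℝ) ≤ k)]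
  have hsk : √((k : ℝ) + 1) = s := by rw [hs]; push_cast; rfl
  have hm : ‖(toLp 2 (fun i => M i 0) : E (k + 1))‖ ≤ s := (col_le_norm M).trans hM
  calc ∫⁻ H, gam (k + 1) ((fun g => (g, H)) ⁻¹' badSet' M σ δ)
        ∂(Measure.pi (fun _ : Fin (k + 1) => gam k))
      ≤ ∫⁻ H, (ENNReal.ofReal (2 * δ / σ * (4 * s)) + ENNReal.ofReal (2 * δ / σ) *
        ENNReal.ofReal ‖T (padCol (Matrix.of fun i (j : Fin k) => M i j.succ + σ * H i j))‖)
        ∂(Measure.pi (fun _ : Fin (k + 1) => gam k)) := by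
        refine lintegral_mono (fun H => ?_)
        beta_reduce
        have h1 := colSet_le (fun i => M i 0) σ δ
          (‖T (padCol (Matrix.of fun i (j : Fin k) => M i j.succ + σ * H i j))‖ + 1) hσ hδ hδ2
          (by positivity) (Matrix.of fun i (j : Fin k) => M i j.succ + σ * H i j)
        refine h1.trans ?_
        rw [← ENNReal.ofReal_mul (by positivity), ← ENNReal.ofReal_add (by positivity)
          (by positivity)]
        apply ENNReal.ofReal_le_ofReal
        rw [← mul_add]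
        apply mul_le_mul_of_nonneg_left _ (by positivity)
        rw [hsk]
        have : σ * s ≤ 1 * s := by gcongr
        linarith
    _ ≤ ENNReal.ofReal (2 * δ / σ * (4 * s)) + ENNReal.ofReal (2 * δ / σ) *
          ENNReal.ofReal (16 * s) := by
        rw [lintegral_add_left measurable_const, lintegral_const_mul' _ _ ENNReal.ofReal_ne_top,
          lintegral_const, measure_univ, mul_one]
        gcongr
        exact pad_mean_le M σ hσ hσ1 hM
    _ = ENNReal.ofReal (40 * δ * s / σ) := by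
        rw [← ENNReal.ofReal_mul (by positivity), ← ENNReal.ofReal_add (by positivity)
          (by positivity)]
        congr 1
        ring

end Pool.Agent.CondNum
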