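import Pool.Agent.MP_7b591b_pr.Basic

set_option autoImplicit false
open MeasureTheory ProbabilityTheory WithLp

namespace Pool.Agent.CondNum

lemma lintegral_pi_prod {n : ℕ} {α : Type} [MeasurableSpace α] (μ : Measure α) [SigmaFinite μ]
    (f : Fin n → α → ENNReal) (hf : ∀ i, Measurable (f i)) :
    ∫⁻ x, ∏ i, f i (x i) ∂(Measure.pi (fun _ : Fin n => μ)) = ∏ i, ∫⁻ x, f i x ∂μ := by
  induction n with
  | zero => simp
  | succ n ih =>
    have hmp := measurePreserving_piFinSuccAbove (fun _ : Fin (n + 1) => μ) 0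
    have h1 : (fun x : Fin (n + 1) → α => ∏ i, f i (x i)) =
        (fun p : α × (Fin n → α) => f 0 p.1 * ∏ i : Fin n, f i.succ (p.2 i)) ∘
          (MeasurableEquiv.piFinSuccAbove (fun _ => α) 0) := by
      ext x
      simp only [Function.comp, Fin.prod_univ_succ]
      rfl
    have hmeas : Measurable (fun p : α × (Fin n → α) => f 0 p.1 * ∏ i : Fin n, f i.succ (p.2 i)) := by
      apply Measurable.mul
      · exact (hf 0).comp measurable_fst
      · apply Finset.measurable_prod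
        intro i _
        exact (hf i.succ).comp ((measurable_pi_apply i).comp measurable_snd)
    rw [h1]
    have h2 := hmp.lintegral_comp hmeas
    refine h2.trans ?_
    rw [lintegral_prod_mul (f := fun a => f 0 a) (g := fun y : Fin n → α =>
      ∏ i : Fin n, f i.succ (y i)) (hf 0).aemeasurable (by
        apply Measurable.aemeasurable
        apply Finset.measurable_prod
        intro i _
        exact (hf i.succ).comp (measurable_pi_apply i)), ih _ (fun i => hf i.succ),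
      Fin.prod_univ_succ]

lemma gauss_mgf (c : ℝ) : ∫⁻ t, ENNReal.ofReal (Real.exp (c * t)) ∂(gaussianReal 0 1) =
    ENNReal.ofReal (Real.exp (c ^ 2 / 2)) := by
  rw [← ofReal_integral_eq_lintegral_ofReal (integrable_exp_mul_gaussianReal c)
    (Filter.Eventually.of_forall (fun t => (Real.exp_pos _).le))]
  have := congrFun (mgf_id_gaussianReal (μ := 0) (v := 1)) c
  simp only [mgf, id] at this
  rw [this]
  simp

/-- the law of the Gaussian matrix -/
noncomputable abbrev muM (n : ℕ) : Measure (Fin n → Fin n → ℝ) :=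
  Measure.pi (fun _ : Fin n => Measure.pi (fun _ : Fin n => gaussianReal 0 1))

lemma row_mgf {n : ℕ} (c : Fin n → ℝ) :
    ∫⁻ g, ∏ j, ENNReal.ofReal (Real.exp (c j * g j)) ∂(gam n) =
      ∏ j, ENNReal.ofReal (Real.exp (c j ^ 2 / 2)) := by
  have h := lintegral_pi_prod (gaussianReal 0 1)
    (fun (j : Fin n) (t : ℝ) => ENNReal.ofReal (Real.exp (c j * t))) (fun j => by fun_prop)
  rw [h]
  apply Finset.prod_congr rfl
  intro j _
  exact gauss_mgf (c j)

lemma matrix_mgf {n : ℕ} (c : Fin n → Fin n → ℝ) :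
    ∫⁻ G, ENNReal.ofReal (Real.exp (∑ i, ∑ j, c i j * G i j)) ∂(muM n) =
      ENNReal.ofReal (Real.exp (∑ i, ∑ j, c i j ^ 2 / 2)) := by
  have h1 : ∀ G : Fin n → Fin n → ℝ, ENNReal.ofReal (Real.exp (∑ i, ∑ j, c i j * G i j)) =
      ∏ i, (∏ j, ENNReal.ofReal (Real.exp (c i j * G i j))) := by
    intro G
    rw [Real.exp_sum, ENNReal.ofReal_prod_of_nonneg (fun i _ => (Real.exp_pos _).le)]
    apply Finset.prod_congr rfl
    intro i _
    rw [Real.exp_sum, ENNReal.ofReal_prod_of_nonneg (fun i _ => (Real.exp_pos _).le)]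
  rw [lintegral_congr h1]
  have h := lintegral_pi_prod (gam n)
    (fun (i : Fin n) (g : Fin n → ℝ) => ∏ j, ENNReal.ofReal (Real.exp (c i j * g j)))
    (fun i => by fun_prop)
  rw [h, Real.exp_sum, ENNReal.ofReal_prod_of_nonneg (fun i _ => (Real.exp_pos _).le)]
  apply Finset.prod_congr rfl
  intro i _
  rw [Real.exp_sum, ENNReal.ofReal_prod_of_nonneg (fun i _ => (Real.exp_pos _).le)]
  exact row_mgf (c i)

/-- integer net -/
noncomputable def net (n : ℕ) : Finset (Fin n → ℤ) :=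
  (Fintype.piFinset (fun _ => Finset.Icc (-(3 * n : ℤ)) (3 * n))).filter
    (fun x => ∑ i, |x i| ≤ 3 * n ∧ 4 * ∑ i, x i ^ 2 ≤ 25 * n)

lemma sum_half (m : ℕ) : ∑ k ∈ Finset.Icc (-(m : ℤ)) m, (1 / 2 : ℝ) ^ k.natAbs ≤ 3 := by
  have h : ∑ k ∈ Finset.Icc (-(m : ℤ)) m, (1 / 2 : ℝ) ^ k.natAbs = 3 - 2 * (1 / 2) ^ m := by
    induction m with
    | zero => simp; norm_num
    | succ m ih =>
      have h1 : Finset.Icc (-((m + 1 : ℕ) : ℤ)) ((m + 1 : ℕ) : ℤ) =
          insert ((m + 1 : ℕ) : ℤ) (insert (-((m + 1 : ℕ) : ℤ)) (Finset.Icc (-(m : ℤ)) m)) := by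
        ext k
        simp only [Finset.mem_Icc, Finset.mem_insert]
        push_cast
        omega
      rw [h1, Finset.sum_insert, Finset.sum_insert, ih]
      · have h2 : ((m + 1 : ℕ) : ℤ).natAbs = m + 1 := rfl
        have h3 : (-((m + 1 : ℕ) : ℤ)).natAbs = m + 1 := by rw [Int.natAbs_neg]; rfl
        rw [h2, h3, pow_succ]
        ring
      · simp only [Finset.mem_Icc]; push_cast; omega
      · simp only [Finset.mem_Icc, Finset.mem_insert]; push_cast; omega
  rw [h]
  have : (0:ℝ) ≤ 2 * (1 / 2) ^ m := by positivity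
  linarith

lemma card_net (n : ℕ) : ((net n).card : ℝ) ≤ 24 ^ n := by
  have h1 : ∀ x ∈ net n, (1 : ℝ) ≤ 8 ^ n * ∏ i, (1 / 2 : ℝ) ^ (x i).natAbs := by
    intro x hx
    have hx1 := (Finset.mem_filter.1 hx).2.1
    rw [Finset.prod_pow_eq_pow_sum]
    have h2 : ∑ i, (x i).natAbs ≤ 3 * n := by
      have : ((∑ i, (x i).natAbs : ℕ) : ℤ) = ∑ i, |x i| := by
        rw [Nat.cast_sum]
        apply Finset.sum_congr rfl
        intro i _
        exact Int.natCast_natAbs (x i)
      omega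
    have h3 : (1 / 2 : ℝ) ^ (3 * n) ≤ (1 / 2 : ℝ) ^ (∑ i, (x i).natAbs) :=
      pow_le_pow_of_le_one (by norm_num) (by norm_num) h2
    have h4 : (8 : ℝ) ^ n * (1 / 2 : ℝ) ^ (3 * n) = 1 := by
      rw [pow_mul, ← mul_pow]; norm_num
    calc (1 : ℝ) = (8 : ℝ) ^ n * (1 / 2 : ℝ) ^ (3 * n) := h4.symm
      _ ≤ _ := by gcongr
  calc ((net n).card : ℝ) = ∑ x ∈ net n, (1 : ℝ) := by simp
    _ ≤ ∑ x ∈ net n, 8 ^ n * ∏ i, (1 / 2 : ℝ) ^ (x i).natAbs := Finset.sum_le_sum h1
    _ ≤ ∑ x ∈ Fintype.piFinset (fun _ : Fin n => Finset.Icc (-(3 * n : ℤ)) (3 * n)),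
          8 ^ n * ∏ i, (1 / 2 : ℝ) ^ (x i).natAbs := by
        apply Finset.sum_le_sum_of_subset_of_nonneg (Finset.filter_subset _ _)
        intro x _ _
        positivity
    _ = 8 ^ n * (∑ k ∈ Finset.Icc (-(3 * n : ℤ)) (3 * n), (1 / 2 : ℝ) ^ k.natAbs) ^ n := by
        rw [← Finset.mul_sum, ← Finset.prod_univ_sum
          (t := fun _ : Fin n => Finset.Icc (-(3 * n : ℤ)) (3 * n))
          (f := fun _ k => (1 / 2 : ℝ) ^ k.natAbs)]
        simp
    _ ≤ 8 ^ n * 3 ^ n := by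
        gcongr
        have := sum_half (3 * n)
        push_cast at this
        exact this
    _ = 24 ^ n := by rw [← mul_pow]; norm_num

lemma round_mem_net {n : ℕ} (hn : 1 ≤ n) (u : E n) (hu : ‖u‖ = 1) :
    (fun i => round (2 * √n * u i)) ∈ net n ∧
      ‖(toLp 2 (fun i => ((round (2 * √n * u i) : ℤ) : ℝ)) : E n) - (2 * √n) • u‖ ≤ √n / 2 ∧
      ‖(toLp 2 (fun i => ((round (2 * √n * u i) : ℤ) : ℝ)) : E n)‖ ≤ 5 / 2 * √n := by
  have hs0 : 0 ≤ √(n : ℝ) := Real.sqrt_nonneg _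
  have hss : √(n : ℝ) ^ 2 = n := Real.sq_sqrt (by positivity)
  have husq : ∑ i, u i ^ 2 = 1 := by
    rw [← EuclideanSpace.real_norm_sq_eq, hu]; norm_num
  have hround : ∀ i, |2 * √n * u i - (round (2 * √n * u i) : ℤ)| ≤ 1 / 2 :=
    fun i => abs_sub_round _
  have hdiff : ‖(toLp 2 (fun i => ((round (2 * √n * u i) : ℤ) : ℝ)) : E n) - (2 * √n) • u‖ ≤
      √n / 2 := by
    apply le_of_sq_le_sq _ (by positivity)
    rw [EuclideanSpace.real_norm_sq_eq]
    calc _ ≤ ∑ i : Fin n, (1 / 2 : ℝ) ^ 2 := by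
          apply Finset.sum_le_sum
          intro i _
          have h := hround i
          rw [abs_sub_comm] at h
          simp only [PiLp.sub_apply, PiLp.smul_apply, smul_eq_mul]
          rw [← sq_abs]
          gcongr
      _ = (√n / 2) ^ 2 := by
          rw [div_pow √(n:ℝ), hss]; simp; ring
  have hnorm : ‖(toLp 2 (fun i => ((round (2 * √n * u i) : ℤ) : ℝ)) : E n)‖ ≤ 5 / 2 * √n := by
    have h1 : (toLp 2 (fun i => ((round (2 * √n * u i) : ℤ) : ℝ)) : E n) =
      ((toLp 2 (fun i => ((round (2 * √n * u i) : ℤ) : ℝ)) : E n) - (2 * √n) • u) +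
        (2 * √n) • u := by abel
    rw [h1]
    refine (norm_add_le _ _).trans ?_
    have h2 : ‖(2 * √(n:ℝ)) • u‖ = 2 * √n := by
      rw [norm_smul, hu, mul_one, Real.norm_of_nonneg (by positivity)]
    rw [h2]
    linarith
  have hsum : ∑ i, |round (2 * √n * u i)| ≤ 3 * (n : ℤ) := by
    have h1 : ∑ i, |u i| ≤ √n := by
      have h2 : (∑ i, |u i|) ^ 2 ≤ (√(n:ℝ)) ^ 2 := by
        have h3 := sq_sum_le_card_mul_sum_sq (s := (Finset.univ : Finset (Fin n)))
          (f := fun i => |u i|)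
        simp only [sq_abs] at h3
        rw [husq] at h3
        rw [hss]
        simpa using h3
      exact le_of_sq_le_sq h2 hs0
    have h4 : ((∑ i, |round (2 * √n * u i)| : ℤ) : ℝ) ≤ 5 / 2 * n := by
      push_cast
      calc ∑ i, |((round (2 * √n * u i) : ℤ) : ℝ)| ≤ ∑ i, (2 * √n * |u i| + 1 / 2) := by
            apply Finset.sum_le_sum
            intro i _
            have h := hround i
            rw [abs_sub_comm] at h
            have h5 := abs_sub_abs_le_abs_sub ((round (2 * √n * u i) : ℤ) : ℝ) (2 * √n * u i)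
            have h6 : |2 * √n * u i| = 2 * √n * |u i| := by
              rw [abs_mul, abs_of_nonneg (by positivity : (0:ℝ) ≤ 2 * √n)]
            rw [h6] at h5
            linarith
        _ = 2 * √n * ∑ i, |u i| + n * (1 / 2) := by
            rw [Finset.sum_add_distrib, ← Finset.mul_sum]; simp
        _ ≤ 2 * √n * √n + n * (1 / 2) := by gcongr
        _ = 5 / 2 * n := by
            have : 2 * √(n:ℝ) * √n = 2 * √n ^ 2 := by ring
            rw [this, hss]; ring
    have h7 : ((∑ i, |round (2 * √n * u i)| : ℤ) : ℝ) ≤ ((3 * (n : ℤ) : ℤ) : ℝ) := by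
      push_cast at h4 ⊢
      have : (0:ℝ) ≤ n := by positivity
      linarith
    exact_mod_cast h7
  have hsq : 4 * ∑ i, (round (2 * √n * u i)) ^ 2 ≤ 25 * (n : ℤ) := by
    have h1 : ‖(toLp 2 (fun i => ((round (2 * √n * u i) : ℤ) : ℝ)) : E n)‖ ^ 2 ≤
        (5 / 2 * √n) ^ 2 := by gcongr
    rw [EuclideanSpace.real_norm_sq_eq, mul_pow, hss] at h1
    have h2 : ((4 * ∑ i, (round (2 * √n * u i)) ^ 2 : ℤ) : ℝ) ≤ ((25 * (n : ℤ) : ℤ) : ℝ) := by
      push_cast
      simp only at h1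
      linarith
    exact_mod_cast h2
  refine ⟨?_, hdiff, hnorm⟩
  unfold net
  rw [Finset.mem_filter]
  refine ⟨?_, hsum, hsq⟩
  rw [Fintype.mem_piFinset]
  intro i
  have h1 : |round (2 * √n * u i)| ≤ ∑ j, |round (2 * √n * u j)| :=
    Finset.single_le_sum (f := fun j => |round (2 * √n * u j)|) (fun j _ => abs_nonneg _)
      (Finset.mem_univ i)
  rw [Finset.mem_Icc]
  exact abs_le.1 (h1.trans hsum)

/-- some vector of the unit sphere almost attains the operator norm, here exactly -/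
lemma exists_norm_attained {n : ℕ} (hn : 1 ≤ n) (A : Matrix (Fin n) (Fin n) ℝ) :
    ∃ v : E n, ‖v‖ = 1 ∧ ‖T A v‖ = ‖T A‖ := by
  have : NeZero n := ⟨by omega⟩
  have : Nontrivial (E n) := by
    refine ⟨⟨EuclideanSpace.single (0 : Fin n) (1:ℝ), 0, ?_⟩⟩
    intro h0
    have := congrArg norm h0
    simp at this
  have hne : (Metric.sphere (0 : E n) 1).Nonempty := NormedSpace.sphere_nonempty.2 zero_le_one
  obtain ⟨z, hz, hmax⟩ := (isCompact_sphere (0 : E n) 1).exists_isMaxOn hne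
    (f := fun z => ‖T A z‖) (by fun_prop)
  have hz1 : ‖z‖ = 1 := by simpa using hz
  refine ⟨z, hz1, le_antisymm ?_ ?_⟩
  · have := (T A).le_opNorm z
    rwa [hz1, mul_one] at this
  · apply ContinuousLinearMap.opNorm_le_bound _ (norm_nonneg _)
    intro y
    by_cases hy : y = 0
    · simp [hy]
    have hy0 : 0 < ‖y‖ := norm_pos_iff.2 hy
    have hmem : (‖y‖⁻¹ • y) ∈ Metric.sphere (0 : E n) 1 := by
      simp [norm_smul, hy]
    have h1 := hmax hmem
    simp only [Set.mem_ofPred_eq, map_smul, norm_smul, norm_inv, norm_norm] at h1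
    calc ‖T A y‖ = (‖y‖⁻¹ * ‖T A y‖) * ‖y‖ := by field_simp
      _ ≤ ‖T A z‖ * ‖y‖ := by gcongr

lemma exists_net_pair {n : ℕ} (hn : 1 ≤ n) (G : Fin n → Fin n → ℝ) :
    ∃ x ∈ net n, ∃ y ∈ net n, 7 / 4 * n * ‖T (Matrix.of G)‖ ≤
      ∑ i, ∑ j, (y i : ℝ) * (x j : ℝ) * G i j := by
  obtain ⟨v, hv, hvL⟩ := exists_norm_attained hn (Matrix.of G)
  set L := ‖T (Matrix.of G)‖ with hL
  have hL0 : 0 ≤ L := norm_nonneg _
  -- choice of u
  obtain ⟨u, hu, huL⟩ : ∃ u : E n, ‖u‖ = 1 ∧ inner ℝ u (T (Matrix.of G) v) = L := by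
    by_cases h0 : T (Matrix.of G) v = 0
    · refine ⟨v, hv, ?_⟩
      rw [h0, inner_zero_right, ← hvL, h0, norm_zero]
    · have h1 : 0 < ‖T (Matrix.of G) v‖ := norm_pos_iff.2 h0
      refine ⟨‖T (Matrix.of G) v‖⁻¹ • T (Matrix.of G) v, ?_, ?_⟩
      · rw [norm_smul, norm_inv, norm_norm, inv_mul_cancel₀ h1.ne']
      · rw [real_inner_smul_left, real_inner_self_eq_norm_sq, hvL]
        rw [hvL] at h1
        field_simp
  obtain ⟨hx, hxd, hxn⟩ := round_mem_net hn v hv
  obtain ⟨hy, hyd, hyn⟩ := round_mem_net hn u hu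
  refine ⟨_, hx, _, hy, ?_⟩
  set X : E n := toLp 2 (fun i => ((round (2 * √n * v i) : ℤ) : ℝ)) with hX
  set Y : E n := toLp 2 (fun i => ((round (2 * √n * u i) : ℤ) : ℝ)) with hY
  have hbil : ∑ i, ∑ j, ((round (2 * √n * u i) : ℤ) : ℝ) * ((round (2 * √n * v j) : ℤ) : ℝ) * G i j
      = inner ℝ Y (T (Matrix.of G) X) := by
    rw [Matrix.inner_toEuclideanCLM]
    simp only [hX, hY, dotProduct, Matrix.mulVec, Matrix.of_apply]
    apply Finset.sum_congr rfl
    intro i _
    rw [Finset.mul_sum]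
    apply Finset.sum_congr rfl
    intro j _
    ring
  rw [hbil]
  have hss : √(n : ℝ) ^ 2 = n := Real.sq_sqrt (by positivity)
  have hs0 : 0 ≤ √(n : ℝ) := Real.sqrt_nonneg _
  set s := √(n : ℝ) with hs
  set d := X - (2 * s) • v with hd
  set e := Y - (2 * s) • u with he
  have hXd : X = (2 * s) • v + d := by rw [hd]; abel
  have hYe : Y = (2 * s) • u + e := by rw [he]; abel
  have hopd : ‖T (Matrix.of G) d‖ ≤ L * (s / 2) :=
    ((T (Matrix.of G)).le_opNorm d).trans (by gcongr)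
  have h1 : -(L * (s / 2)) ≤ inner ℝ u (T (Matrix.of G) d) := by
    have := abs_real_inner_le_norm u (T (Matrix.of G) d)
    rw [hu, one_mul] at this
    exact (abs_le.1 (this.trans hopd)).1
  have h2 : -(s / 2 * L) ≤ inner ℝ e (T (Matrix.of G) v) := by
    have := abs_real_inner_le_norm e (T (Matrix.of G) v)
    rw [hvL] at this
    have h3 : ‖e‖ * L ≤ s / 2 * L := by gcongr
    exact (abs_le.1 (this.trans h3)).1
  have h3 : -(s / 2 * (L * (s / 2))) ≤ inner ℝ e (T (Matrix.of G) d) := by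
    have := abs_real_inner_le_norm e (T (Matrix.of G) d)
    have h3 : ‖e‖ * ‖T (Matrix.of G) d‖ ≤ s / 2 * (L * (s / 2)) := by gcongr
    exact (abs_le.1 (this.trans h3)).1
  have hexp : inner ℝ Y (T (Matrix.of G) X) = 4 * s ^ 2 * L + 2 * s * inner ℝ u (T (Matrix.of G) d)
      + 2 * s * inner ℝ e (T (Matrix.of G) v) + inner ℝ e (T (Matrix.of G) d) := by
    rw [hXd, hYe, map_add, map_smul, inner_add_left, inner_add_right, inner_add_right,
      real_inner_smul_left, real_inner_smul_right, real_inner_smul_left, real_inner_smul_right,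
      huL]
    ring
  rw [hexp]
  have h4 : 2 * s * (-(L * (s / 2))) ≤ 2 * s * inner ℝ u (T (Matrix.of G) d) := by gcongr
  have h5 : 2 * s * (-(s / 2 * L)) ≤ 2 * s * inner ℝ e (T (Matrix.of G) v) := by gcongr
  rw [← hss]
  nlinarith

lemma exp_norm_le {n : ℕ} (hn : 1 ≤ n) :
    ∫⁻ G, ENNReal.ofReal (Real.exp (√n * ‖T (Matrix.of G)‖)) ∂(muM n) ≤
      ENNReal.ofReal (Real.exp (14 * n)) := by
  have hn0 : (0 : ℝ) < n := by exact_mod_cast hn
  have hss : √(n : ℝ) ^ 2 = n := Real.sq_sqrt (by positivity)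
  have hs0 : 0 < √(n : ℝ) := Real.sqrt_pos.2 hn0
  set lam : ℝ := 4 / (7 * √n) with hlam
  have hpt : ∀ G : Fin n → Fin n → ℝ,
      ENNReal.ofReal (Real.exp (√n * ‖T (Matrix.of G)‖)) ≤
      ∑ x ∈ net n, ∑ y ∈ net n,
        ENNReal.ofReal (Real.exp (∑ i, ∑ j, (lam * y i * x j) * G i j)) := by
    intro G
    obtain ⟨x, hx, y, hy, hxy⟩ := exists_net_pair hn G
    have h1 : √n * ‖T (Matrix.of G)‖ ≤ ∑ i, ∑ j, (lam * y i * x j) * G i j := by
      have h2 : ∑ i, ∑ j, (lam * y i * x j) * G i j =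
          lam * ∑ i, ∑ j, (y i : ℝ) * (x j : ℝ) * G i j := by
        rw [Finset.mul_sum]
        apply Finset.sum_congr rfl
        intro i _
        rw [Finset.mul_sum]
        apply Finset.sum_congr rfl
        intro j _
        ring
      rw [h2]
      have h3 : lam * (7 / 4 * n * ‖T (Matrix.of G)‖) = √n * ‖T (Matrix.of G)‖ := by
        rw [hlam]
        nth_rewrite 2 [← hss]
        field_simp
      rw [← h3]
      gcongr
    calc ENNReal.ofReal (Real.exp (√n * ‖T (Matrix.of G)‖)) ≤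
        ENNReal.ofReal (Real.exp (∑ i, ∑ j, (lam * y i * x j) * G i j)) :=
          ENNReal.ofReal_le_ofReal (Real.exp_le_exp.2 h1)
      _ ≤ ∑ y ∈ net n, ENNReal.ofReal (Real.exp (∑ i, ∑ j, (lam * y i * x j) * G i j)) :=
          Finset.single_le_sum (f := fun y : Fin n → ℤ =>
            ENNReal.ofReal (Real.exp (∑ i, ∑ j, (lam * y i * x j) * G i j)))
            (fun _ _ => zero_le) hy
      _ ≤ _ := Finset.single_le_sum (f := fun x : Fin n → ℤ => ∑ y ∈ net n,
            ENNReal.ofReal (Real.exp (∑ i, ∑ j, (lam * y i * x j) * G i j)))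
            (fun _ _ => zero_le) hx
  have hterm : ∀ x ∈ net n, ∀ y ∈ net n,
      ∫⁻ G, ENNReal.ofReal (Real.exp (∑ i, ∑ j, (lam * y i * x j) * G i j)) ∂(muM n) ≤
        ENNReal.ofReal (Real.exp (7 * n)) := by
    intro x hx y hy
    rw [matrix_mgf (fun i j => lam * y i * x j)]
    apply ENNReal.ofReal_le_ofReal
    rw [Real.exp_le_exp]
    have hx2 : 4 * ∑ i, (x i : ℝ) ^ 2 ≤ 25 * n := by
      have := (Finset.mem_filter.1 hx).2.2
      exact_mod_cast this
    have hy2 : 4 * ∑ i, (y i : ℝ) ^ 2 ≤ 25 * n := by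
      have := (Finset.mem_filter.1 hy).2.2
      exact_mod_cast this
    have h1 : ∑ i, ∑ j, (lam * y i * x j) ^ 2 / 2 =
        lam ^ 2 / 2 * ((∑ i, (y i : ℝ) ^ 2) * ∑ j, (x j : ℝ) ^ 2) := by
      rw [Finset.sum_mul_sum, Finset.mul_sum]
      apply Finset.sum_congr rfl
      intro i _
      rw [Finset.mul_sum]
      apply Finset.sum_congr rfl
      intro j _
      ring
    rw [h1]
    have hx0 : 0 ≤ ∑ i, (x i : ℝ) ^ 2 := Finset.sum_nonneg (fun _ _ => sq_nonneg _)
    have hlam2 : lam ^ 2 = 16 / (49 * n) := by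
      rw [hlam, div_pow, mul_pow, hss]; norm_num
    have h2 : (∑ i, (y i : ℝ) ^ 2) * ∑ j, (x j : ℝ) ^ 2 ≤ (25 / 4 * n) * (25 / 4 * n) := by
      apply mul_le_mul _ _ hx0 (by positivity)
      · linarith
      · linarith
    calc lam ^ 2 / 2 * ((∑ i, (y i : ℝ) ^ 2) * ∑ j, (x j : ℝ) ^ 2) ≤
        lam ^ 2 / 2 * ((25 / 4 * (n:ℝ)) * (25 / 4 * (n:ℝ))) := by gcongr
      _ = 625 / 98 * (n:ℝ) := by rw [hlam2]; field_simp; norm_num
      _ ≤ 7 * (n:ℝ) := by gcongr; norm_num
  calc ∫⁻ G, ENNReal.ofReal (Real.exp (√n * ‖T (Matrix.of G)‖)) ∂(muM n)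
      ≤ ∫⁻ G, ∑ x ∈ net n, ∑ y ∈ net n,
        ENNReal.ofReal (Real.exp (∑ i, ∑ j, (lam * y i * x j) * G i j)) ∂(muM n) :=
        lintegral_mono hpt
    _ = ∑ x ∈ net n, ∑ y ∈ net n,
        ∫⁻ G, ENNReal.ofReal (Real.exp (∑ i, ∑ j, (lam * y i * x j) * G i j)) ∂(muM n) := by
        rw [lintegral_finsetSum _ (by fun_prop)]
        apply Finset.sum_congr rfl
        intro x _
        rw [lintegral_finsetSum _ (by fun_prop)]
    _ ≤ ∑ x ∈ net n, ∑ y ∈ net n, ENNReal.ofReal (Real.exp (7 * n)) := by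
        apply Finset.sum_le_sum
        intro x hx
        apply Finset.sum_le_sum
        intro y hy
        exact hterm x hx y hy
    _ = ENNReal.ofReal (((net n).card : ℝ) * (((net n).card : ℝ) * Real.exp (7 * n))) := by
        rw [Finset.sum_const, Finset.sum_const, nsmul_eq_mul, nsmul_eq_mul,
          ENNReal.ofReal_mul (by positivity), ENNReal.ofReal_mul (by positivity),
          ENNReal.ofReal_natCast]
    _ ≤ ENNReal.ofReal (Real.exp (14 * n)) := by
        apply ENNReal.ofReal_le_ofReal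
        have h1 := card_net n
        have h2 : (24 : ℝ) ^ n * 24 ^ n ≤ Real.exp (7 * n) := by
          rw [← mul_pow, mul_comm (7:ℝ), Real.exp_nat_mul]
          gcongr
          have h3 : (2.7 : ℝ) < Real.exp 1 := by
            have := Real.exp_one_gt_d9; linarith
          have h4 : Real.exp 7 = Real.exp 1 ^ 7 := by
            rw [← Real.exp_nat_mul]; norm_num
          rw [h4]
          calc (24 * 24 : ℝ) ≤ 2.7 ^ 7 := by norm_num
            _ ≤ Real.exp 1 ^ 7 := by gcongr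
        calc ((net n).card : ℝ) * (((net n).card : ℝ) * Real.exp (7 * n)) ≤
            24 ^ n * (24 ^ n * Real.exp (7 * n)) := by gcongr
          _ = (24 ^ n * 24 ^ n) * Real.exp (7 * n) := by ring
          _ ≤ Real.exp (7 * n) * Real.exp (7 * n) := by gcongr
          _ = Real.exp (14 * n) := by rw [← Real.exp_add]; ring_nf

lemma norm_mean_le {n : ℕ} (hn : 1 ≤ n) :
    ∫⁻ G, ENNReal.ofReal ‖T (Matrix.of G)‖ ∂(muM n) ≤ ENNReal.ofReal (15 * √n) := by
  have hn0 : (0 : ℝ) < n := by exact_mod_cast hn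
  have hn1 : (1 : ℝ) ≤ n := by exact_mod_cast hn
  have hss : √(n : ℝ) ^ 2 = n := Real.sq_sqrt (by positivity)
  have hs0 : 0 < √(n : ℝ) := Real.sqrt_pos.2 hn0
  have hpt : ∀ G : Fin n → Fin n → ℝ, ENNReal.ofReal ‖T (Matrix.of G)‖ ≤
      ENNReal.ofReal (14 * n / √n) + ENNReal.ofReal ((√n)⁻¹ * Real.exp (-(14 * n))) *
        ENNReal.ofReal (Real.exp (√n * ‖T (Matrix.of G)‖)) := by
    intro G
    rw [← ENNReal.ofReal_mul (by positivity), ← ENNReal.ofReal_add (by positivity) (by positivity)]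
    apply ENNReal.ofReal_le_ofReal
    set L := ‖T (Matrix.of G)‖
    have h1 : √n * L ≤ 14 * n + Real.exp (-(14 * n)) * Real.exp (√n * L) := by
      rw [← Real.exp_add]
      have := Real.add_one_le_exp (-(14 * (n:ℝ)) + √n * L)
      linarith
    calc L = (√n)⁻¹ * (√n * L) := by field_simp
      _ ≤ (√n)⁻¹ * (14 * n + Real.exp (-(14 * n)) * Real.exp (√n * L)) := by gcongr
      _ = 14 * n / √n + (√n)⁻¹ * Real.exp (-(14 * n)) * Real.exp (√n * L) := by ring
  calc ∫⁻ G, ENNReal.ofReal ‖T (Matrix.of G)‖ ∂(muM n)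
      ≤ ∫⁻ G, (ENNReal.ofReal (14 * n / √n) +
        ENNReal.ofReal ((√n)⁻¹ * Real.exp (-(14 * n))) *
        ENNReal.ofReal (Real.exp (√n * ‖T (Matrix.of G)‖))) ∂(muM n) := lintegral_mono hpt
    _ ≤ ENNReal.ofReal (14 * n / √n) + ENNReal.ofReal ((√n)⁻¹ * Real.exp (-(14 * n))) *
        ENNReal.ofReal (Real.exp (14 * n)) := by
        rw [lintegral_add_left measurable_const, lintegral_const_mul']
        · have := exp_norm_le hn
          rw [lintegral_const, measure_univ, mul_one]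
          gcongr
        · exact ENNReal.ofReal_ne_top
    _ ≤ ENNReal.ofReal (15 * √n) := by
        rw [← ENNReal.ofReal_mul (by positivity), ← ENNReal.ofReal_add (by positivity)
          (by positivity)]
        apply ENNReal.ofReal_le_ofReal
        rw [mul_assoc, ← Real.exp_add]
        have h2 : -(14 * (n:ℝ)) + 14 * n = 0 := by ring
        rw [h2, Real.exp_zero, mul_one]
        have h3 : 14 * (n:ℝ) / √n = 14 * √n := by
          nth_rewrite 1 [← hss]; field_simp
        rw [h3]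
        have h4 : 1 ≤ √(n:ℝ) := Real.one_le_sqrt.2 hn1
        have h5 : (√(n:ℝ))⁻¹ ≤ 1 := inv_le_one_of_one_le₀ h4
        linarith

end Pool.Agent.CondNum
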